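import Mathlib

/-!
Hamilton cycles and cyclic successor maps.
-/

set_option autoImplicit false

namespace Pool.Agent.P.MP_9d0e7f_co

open SimpleGraph

/-- A map is cyclic when the only nonempty set closed under it is everything. -/
def IsCyc {V : Type*} (f : V → V) : Prop :=
  ∀ S : Set V, S.Nonempty → (∀ v ∈ S, f v ∈ S) → ∀ v, v ∈ S

theorem IsCyc.symm {V : Type*} {f : Equiv.Perm V} (h : IsCyc f) : IsCyc f.symm := by
  intro S hS hcl v
  by_contra hv
  have h2 := h Sᶜ ⟨v, hv⟩ (fun w hw hw' => hw (by simpa using hcl _ hw'))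
  obtain ⟨u, hu⟩ := hS
  exact h2 u hu

theorem IsCyc.surjective {V : Type*} [Nonempty V] {f : V → V} (h : IsCyc f) :
    Function.Surjective f := by
  intro v
  exact h (Set.range f) (Set.range_nonempty f) (fun w _ => ⟨w, rfl⟩) v

theorem isCyc_add_one (n : ℕ) : IsCyc (fun i : Fin (n + 1) => i + 1) := by
  intro S hS hcl
  obtain ⟨u, hu⟩ := hS
  have key : ∀ k : ℕ, u + (Fin.ofNat (n + 1) k) ∈ S := by
    intro k
    induction k with
    | zero =>
      have : Fin.ofNat (n + 1) 0 = 0 := rfl
      simpa [this] using hu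
    | succ k ih =>
      have h1 := hcl _ ih
      have : Fin.ofNat (n + 1) (k + 1) = Fin.ofNat (n + 1) k + 1 := by
        ext
        simp [Fin.val_add]
      rw [this, ← add_assoc]
      exact h1
  intro v
  have h2 := key (v - u).val
  have : Fin.ofNat (n + 1) (v - u).val = v - u := by
    ext
    simp
  rw [this] at h2
  simpa using h2

/-- From a Hamilton cycle to a cyclic successor permutation. -/
theorem exists_succ_of_ham {V : Type*} [Fintype V] [DecidableEq V] (G : SimpleGraph V)
    {v : V} {p : G.Walk v v} (hp : p.IsHamiltonianCycle) :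
    ∃ f : Equiv.Perm V, (∀ u, G.Adj u (f u)) ∧ (∀ u, f (f u) ≠ u) ∧ IsCyc f := by
  have h3 := hp.isCycle.three_le_length
  have hl := hp.length_eq
  obtain ⟨n, hn⟩ : ∃ n, p.length = n + 3 := ⟨p.length - 3, by omega⟩
  obtain ⟨c⟩ := (cycleGraph_isContained_iff (G := G) (n := n + 3) (by omega)).2
    ⟨v, p, hp.isCycle, hn⟩
  have hbij : Function.Bijective c.toHom := by
    refine (Fintype.bijective_iff_injective_and_card _).2 ⟨c.injective, ?_⟩
    simp [← hl, hn]
  let e : Fin (n + 3) ≃ V := Equiv.ofBijective _ hbij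
  have he : ∀ i, e i = c.toHom i := fun i => rfl
  refine ⟨(e.symm.trans (Equiv.addRight 1)).trans e, ?_, ?_, ?_⟩
  · intro u
    obtain ⟨i, rfl⟩ := e.surjective u
    simp only [Equiv.trans_apply, Equiv.symm_apply_apply, Equiv.coe_addRight]
    rw [he, he]
    apply c.toHom.map_adj
    rw [cycleGraph_adj]
    right
    simp
  · intro u
    obtain ⟨i, rfl⟩ := e.surjective u
    simp only [Equiv.trans_apply, Equiv.symm_apply_apply, Equiv.coe_addRight, ne_eq,
      EmbeddingLike.apply_eq_iff_eq]
    intro h
    rw [add_assoc, add_eq_left] at h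
    have := congrArg Fin.val h
    simp [Fin.val_add] at this
    rw [Nat.mod_eq_of_lt (by omega)] at this
    omega
  · intro S hS hcl u
    obtain ⟨i, rfl⟩ := e.surjective u
    refine isCyc_add_one (n + 2) (e ⁻¹' S) ?_ ?_ i
    · obtain ⟨w, hw⟩ := hS
      exact ⟨e.symm w, by simpa using hw⟩
    · intro j hj
      simpa using hcl _ hj

/-- From a successor map reaching every vertex to a Hamilton cycle. -/
theorem ham_of_succ {V : Type*} [Fintype V] [DecidableEq V] (G : SimpleGraph V)
    (h3 : 3 ≤ Fintype.card V) (s : V → V) (hadj : ∀ u, G.Adj u (s u)) (v : V)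
    (hreach : ∀ w, Relation.TransGen (fun a b => s a = b) v w) :
    ∃ (u : V) (p : G.Walk u u), p.IsHamiltonianCycle := by
  have hit : ∀ w, ∃ k, 0 < k ∧ s^[k] v = w := by
    intro w
    induction hreach w with
    | single h => exact ⟨1, by omega, by simpa using h⟩
    | tail _ h ih =>
      obtain ⟨k, hk, rfl⟩ := ih
      exact ⟨k + 1, by omega, by rw [Function.iterate_succ_apply', h]⟩
  have hper : v ∈ Function.periodicPts s := by
    obtain ⟨k, hk, hv⟩ := hit v
    exact ⟨k, hk, hv⟩
  have hpos := Function.minimalPeriod_pos_of_mem_periodicPts hper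
  set m := Function.minimalPeriod s v with hm
  let g : Fin m → V := fun i => s^[i.val] v
  have hinj : Function.Injective g := by
    intro i j hij
    exact Fin.ext ((Function.iterate_eq_iterate_iff_of_lt_minimalPeriod i.isLt j.isLt).1 hij)
  have hsurj : Function.Surjective g := by
    intro w
    obtain ⟨k, -, rfl⟩ := hit w
    exact ⟨⟨k % m, Nat.mod_lt _ hpos⟩, Function.iterate_mod_minimalPeriod_eq⟩
  have hcard : m = Fintype.card V := by
    simpa using Fintype.card_of_bijective ⟨hinj, hsurj⟩
  have hstep : ∀ a b : Fin m, (a - b).val = 1 → G.Adj (g b) (g a) := by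
    intro a b hab
    have h1 : a.val = (b.val + 1) % m := by
      have : NeZero m := ⟨by omega⟩
      have h2 : a = b + (a - b) := by simp
      conv_lhs => rw [h2]
      rw [Fin.val_add, hab]
    have h2 : g a = s (g b) := by
      simp only [g]
      rw [h1, Function.iterate_mod_minimalPeriod_eq, Function.iterate_succ_apply']
    rw [h2]
    exact hadj _
  obtain ⟨u, p, hp, hl⟩ := (cycleGraph_isContained_iff (G := G) (n := m) (by omega)).1
    ⟨⟨⟨g, fun {a b} hab => by
      rcases cycleGraph_adj'.1 hab with h | h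
      · exact (hstep a b h).symm
      · exact hstep b a h⟩, hinj⟩⟩
  exact ⟨u, p, Walk.isHamiltonianCycle_iff_isCycle_and_length_eq.2 ⟨hp, hl.trans hcard⟩⟩

end Pool.Agent.P.MP_9d0e7f_co
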