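import Pool.Agent.P.MP_9d0e7f_co.Cyc

/-!
The digraph with one all-or-nothing gadget for every even permutation of the rows.
It has a directed Hamilton cycle exactly for one sign of the parameter.
-/

set_option autoImplicit false

namespace Pool.Agent.P.MP_9d0e7f_co

open Equiv

/-- Even permutations of the rows. -/
abbrev Ev (m : ℕ) : Type := {α : Perm (Fin (m + 2)) // Perm.sign α = 1}

/-- Gadget vertices. -/
abbrev Core (m : ℕ) : Type := Ev m × Fin (m + 2) × Fin 3

/-- Rows and gadget vertices. -/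
abbrev Node (m : ℕ) : Type := Fin (m + 2) ⊕ Core m

/-- The arcs. -/
def Dig {m : ℕ} (σ : Perm (Fin (m + 2))) : Node m → Node m → Prop
  | .inl _, .inl _ => False
  | .inl k, .inr d => d.1.1 d.2.1 = σ k ∧ d.2.2 = 0
  | .inr c, .inl k => k = c.2.1 ∧ (c.2.2 = 2 ∨ (c.2.2 = 0 ∧ c.2.1 = Fin.last _))
  | .inr c, .inr d =>
      (c.1 = d.1 ∧ c.2.1 = d.2.1 ∧ (c.2.2.val + 1 = d.2.2.val ∨ d.2.2.val + 1 = c.2.2.val)) ∨
      (c.1 = d.1 ∧ c.2.2 = 0 ∧ d.2.2 = 2 ∧ c.2.1.val + 1 = d.2.1.val) ∨
      (c.2.1 = Fin.last _ ∧ c.2.2 ≠ 1 ∧ d.2.1 = 0 ∧ d.2.2 = 2)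

variable {m : ℕ} {σ : Perm (Fin (m + 2))}

theorem out_mid {α : Ev m} {i : Fin (m + 2)} {w : Node m} (h : Dig σ (.inr (α, i, 1)) w) :
    w = .inr (α, i, 0) ∨ w = .inr (α, i, 2) := by
  rcases w with k | ⟨β, j, t⟩
  · simp [Dig] at h
  · simp only [Dig] at h
    rcases h with ⟨rfl, rfl, h⟩ | h | h
    · fin_cases t <;> simp_all
    · simp at h
    · simp at h

theorem in_mid {α : Ev m} {i : Fin (m + 2)} {v : Node m} (h : Dig σ v (.inr (α, i, 1))) :
    v = .inr (α, i, 0) ∨ v = .inr (α, i, 2) := by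
  rcases v with k | ⟨β, j, t⟩
  · simp [Dig] at h
  · simp only [Dig] at h
    rcases h with ⟨rfl, rfl, h⟩ | h | h
    · fin_cases t <;> simp_all
    · simp at h
    · simp at h

theorem in_row_zero {v : Node m} (h : Dig σ v (.inl 0)) : ∃ α : Ev m, v = .inr (α, 0, 2) := by
  rcases v with k | ⟨β, j, t⟩
  · simp [Dig] at h
  · simp only [Dig] at h
    obtain ⟨rfl, h | h⟩ := h
    · exact ⟨β, by rw [h]⟩
    · exact absurd h.2 (by simp [Fin.ext_iff])

theorem in_two {α : Ev m} {i j : Fin (m + 2)} (hij : i.val + 1 = j.val) {v : Node m}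
    (h : Dig σ v (.inr (α, j, 2))) : v = .inr (α, j, 1) ∨ v = .inr (α, i, 0) := by
  rcases v with k | ⟨β, l, t⟩
  · simp [Dig] at h
  · simp only [Dig] at h
    rcases h with ⟨rfl, rfl, h⟩ | ⟨rfl, rfl, -, h⟩ | ⟨-, -, h, -⟩
    · fin_cases t <;> simp_all
    · right
      have : l = i := Fin.ext (by omega)
      rw [this]
    · exfalso
      rw [h] at hij
      simp at hij

theorem in_zero {α : Ev m} {i : Fin (m + 2)} {v : Node m} (h : Dig σ v (.inr (α, i, 0))) :
    v = .inr (α, i, 1) ∨ v = .inl (σ⁻¹ (α.1 i)) := by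
  rcases v with k | ⟨β, l, t⟩
  · simp only [Dig] at h
    right
    rw [h.1]
    simp
  · simp only [Dig] at h
    rcases h with ⟨rfl, rfl, h⟩ | h | h
    · fin_cases t <;> simp_all
    · simp at h
    · simp at h

theorem out_two {α : Ev m} {i : Fin (m + 2)} (hi : i ≠ Fin.last _) {w : Node m}
    (h : Dig σ (.inr (α, i, 2)) w) : w = .inr (α, i, 1) ∨ w = .inl i := by
  rcases w with k | ⟨β, l, t⟩
  · simp only [Dig] at h
    right
    rw [h.1]
  · simp only [Dig] at h
    rcases h with ⟨rfl, rfl, h⟩ | h | h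
    · fin_cases t <;> simp_all
    · simp at h
    · exact absurd h.1 hi

theorem sign_of_sameCycle (τ : Perm (Fin (m + 2)))
    (h : ∀ k, τ.SameCycle k (Fin.last _)) : Perm.sign τ = -(-1) ^ (m + 2) := by
  have hne : (0 : Fin (m + 2)) ≠ Fin.last _ := by simp [Fin.ext_iff]
  have hmove : ∀ k, τ k ≠ k := by
    intro k hk
    have h1 : ∀ j, k = j := fun j => ((h k).trans (h j).symm).eq_of_left hk
    exact hne ((h1 0).symm.trans (h1 _))
  have hc : τ.IsCycle := ⟨Fin.last _, hmove _, fun y _ => (h y).symm⟩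
  have hs : τ.support = Finset.univ := by
    ext k
    simp [hmove k]
  rw [hc.sign, hs]
  simp

/-- A directed Hamilton cycle forces the sign of the parameter. -/
theorem sign_of_directed (g : Node m → Node m) (hD : ∀ v, Dig σ v (g v))
    (hinj : Function.Injective g) (hc : IsCyc g) : Perm.sign σ = -(-1) ^ (m + 2) := by
  have hsurj := hc.surjective
  have hno : ∀ (α : Ev m) (i : Fin (m + 2)), g (g (.inr (α, i, 1))) ≠ .inr (α, i, 1) := by
    intro α i h
    have h1 := hc {.inr (α, i, 1), g (.inr (α, i, 1))} ⟨_, Or.inl rfl⟩ (by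
      rintro v (rfl | rfl)
      · exact Or.inr rfl
      · exact Or.inl h) (.inl 0)
    rcases h1 with h1 | h1
    · simp at h1
    · rcases out_mid (hD (.inr (α, i, 1))) with h2 | h2 <;> rw [h2] at h1 <;> simp at h1
  have hpred : ∀ w, ∃ v, g v = w ∧ Dig σ v w := by
    intro w
    obtain ⟨v, rfl⟩ := hsurj w
    exact ⟨v, rfl, hD v⟩
  let On : Ev m → Fin (m + 2) → Prop := fun α i =>
    g (.inr (α, i, 0)) = .inr (α, i, 1) ∧ g (.inr (α, i, 1)) = .inr (α, i, 2)
  have c1 : ∀ α i, g (.inr (α, i, 2)) ≠ .inr (α, i, 1) → On α i := by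
    intro α i h
    obtain ⟨v, hv, hd⟩ := hpred (.inr (α, i, 1))
    rcases in_mid hd with rfl | rfl
    · refine ⟨hv, ?_⟩
      rcases out_mid (hD (.inr (α, i, 1))) with h2 | h2
      · exact absurd (by rw [h2, hv]) (hno α i)
      · exact h2
    · exact absurd hv h
  have c2 : ∀ α i, g (.inr (α, i, 1)) = .inr (α, i, 2) → On α i := by
    intro α i h
    apply c1
    intro h2
    exact hno α i (by rw [h, h2])
  obtain ⟨α, hα⟩ : ∃ α, On α 0 := by
    obtain ⟨v, hv, hd⟩ := hpred (.inl 0)
    obtain ⟨α, rfl⟩ := in_row_zero hd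
    exact ⟨α, c1 α 0 (by rw [hv]; simp)⟩
  have hall : ∀ i, On α i := by
    intro i
    induction i using Fin.induction with
    | zero => exact hα
    | succ i ih =>
      obtain ⟨v, hv, hd⟩ := hpred (.inr (α, i.succ, 2))
      rcases in_two (i := i.castSucc) (by simp) hd with rfl | rfl
      · exact c2 _ _ hv
      · rw [ih.1] at hv
        simp at hv
  let τ : Perm (Fin (m + 2)) := α.1⁻¹ * σ
  have hrow : ∀ k, g (.inl k) = .inr (α, τ k, 0) := by
    intro k
    obtain ⟨v, hv, hd⟩ := hpred (.inr (α, τ k, 0))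
    rcases in_zero hd with rfl | rfl
    · rw [(hall _).2] at hv
      simp at hv
    · simpa [τ] using hv
  have htwo : ∀ i, i ≠ Fin.last _ → g (.inr (α, i, 2)) = .inl i := by
    intro i hi
    rcases out_two hi (hD (.inr (α, i, 2))) with h | h
    · have := hinj (h.trans (hall i).1.symm)
      simp at this
    · exact h
  have hcyc : ∀ k, τ.SameCycle k (Fin.last _) := by
    intro k
    by_contra hk
    have h1 := hc {v | ∃ j, ¬ τ.SameCycle j (Fin.last _) ∧
        (v = .inl j ∨ v = .inr (α, j, 0) ∨ v = .inr (α, j, 1) ∨ v = .inr (α, j, 2))}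
      ⟨.inl k, k, hk, Or.inl rfl⟩ (by
        rintro v ⟨j, hj, rfl | rfl | rfl | rfl⟩
        · exact ⟨τ j, by simpa using hj, Or.inr (Or.inl (hrow j))⟩
        · exact ⟨j, hj, Or.inr (Or.inr (Or.inl (hall j).1))⟩
        · exact ⟨j, hj, Or.inr (Or.inr (Or.inr (hall j).2))⟩
        · refine ⟨j, hj, Or.inl (htwo j ?_)⟩
          rintro rfl
          exact hj (Perm.SameCycle.refl _ _)) (.inl (Fin.last _))
    obtain ⟨j, hj, h | h | h | h⟩ := h1
    · have : Fin.last _ = j := by simpa using h
      exact hj (this ▸ Perm.SameCycle.refl _ _)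
    all_goals simp at h
  have h2 := sign_of_sameCycle τ hcyc
  simpa [τ, α.2] using h2

instance evNonempty : Nonempty (Ev m) := ⟨⟨1, by simp⟩⟩

/-- For a suitable parameter there is a directed Hamilton cycle. -/
theorem exists_directed (m : ℕ) : ∃ (σ : Perm (Fin (m + 2))) (s : Node m → Node m) (v : Node m),
    (∀ u, Dig σ u (s u)) ∧ ∀ w, Relation.TransGen (fun a b => s a = b) v w := by
  classical
  let N := Fintype.card (Ev m)
  have hN : 0 < N := Fintype.card_pos
  let e : Ev m ≃ Fin N := Fintype.equivFin _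
  let α₀ : Ev m := e.symm ⟨0, hN⟩
  let nxt : Ev m → Node m := fun α =>
    if h : (e α).val + 1 < N then .inr (e.symm ⟨(e α).val + 1, h⟩, 0, 2) else .inl (Fin.last _)
  let s : Node m → Node m := fun u =>
    match u with
    | .inl k => .inr (α₀, k + 1, 0)
    | .inr c =>
      if c.2.2 = 1 then (if c.1 = α₀ then .inr (c.1, c.2.1, 2) else .inr (c.1, c.2.1, 0))
      else if c.2.2 = 0 then
        (if c.1 = α₀ then .inr (c.1, c.2.1, 1)
          else if c.2.1 = Fin.last _ then nxt c.1 else .inr (c.1, c.2.1 + 1, 2))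
      else
        (if c.1 = α₀ then (if c.2.1 = Fin.last _ then nxt c.1 else .inl c.2.1)
          else .inr (c.1, c.2.1, 1))
  have s_row : ∀ k, s (.inl k) = .inr (α₀, k + 1, 0) := fun k => rfl
  have on0 : ∀ i, s (.inr (α₀, i, 0)) = .inr (α₀, i, 1) := fun i => by simp [s]
  have on1 : ∀ i, s (.inr (α₀, i, 1)) = .inr (α₀, i, 2) := fun i => by simp [s]
  have on2 : ∀ i, i ≠ Fin.last _ → s (.inr (α₀, i, 2)) = .inl i := fun i hi => by simp [s, hi]
  have on2' : s (.inr (α₀, Fin.last _, 2)) = nxt α₀ := by simp [s]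
  have off2 : ∀ α i, α ≠ α₀ → s (.inr (α, i, 2)) = .inr (α, i, 1) := fun α i h => by simp [s, h]
  have off1 : ∀ α i, α ≠ α₀ → s (.inr (α, i, 1)) = .inr (α, i, 0) := fun α i h => by simp [s, h]
  have off0 : ∀ α i, α ≠ α₀ → i ≠ Fin.last _ → s (.inr (α, i, 0)) = .inr (α, i + 1, 2) :=
    fun α i h hi => by simp [s, h, hi]
  have off0' : ∀ α, α ≠ α₀ → s (.inr (α, Fin.last _, 0)) = nxt α := fun α h => by simp [s, h]
  refine ⟨α₀.1 * finRotate (m + 2), s, .inl (Fin.last _), ?_, ?_⟩
  · have hnxt : ∀ (α : Ev m) (t : Fin 3), t ≠ 1 →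
        Dig (α₀.1 * finRotate (m + 2)) (.inr (α, Fin.last _, t)) (nxt α) := by
      intro α t ht
      simp only [nxt]
      split_ifs with h
      · simp [Dig, ht]
      · fin_cases t <;> simp_all [Dig]
    rintro (k | ⟨α, i, t⟩)
    · rw [s_row]
      simp [Dig]
    · by_cases hα : α = α₀
      · subst hα
        fin_cases t
        · simp [on0, Dig]
        · simp [on1, Dig]
        · by_cases hi : i = Fin.last _
          · subst hi
            simpa [on2'] using hnxt α₀ 2 (by decide)
          · simp [on2 i hi, Dig]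
      · fin_cases t
        · by_cases hi : i = Fin.last _
          · subst hi
            simpa [off0' α hα] using hnxt α 0 (by decide)
          · simp [off0 α i hα hi, Dig, Fin.val_add_one, hi]
        · simp [off1 α i hα, Dig]
        · simp [off2 α i hα, Dig]
  · let R : Node m → Prop := fun w => Relation.TransGen (fun a b => s a = b) (.inl (Fin.last _)) w
    have step : ∀ {a b}, R a → s a = b → R b := fun ha hab => Relation.TransGen.tail ha hab
    have hcs : ∀ i : Fin (m + 1), i.castSucc ≠ Fin.last _ := fun i => (Fin.castSucc_lt_last i).ne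
    have hA : ∀ i, R (.inr (α₀, i, 0)) := by
      intro i
      induction i using Fin.induction with
      | zero => exact Relation.TransGen.single (by rw [s_row]; simp)
      | succ i ih =>
        have h1 := step (step (step (step ih (on0 _)) (on1 _)) (on2 _ (hcs i))) (s_row _)
        simpa using h1
    have hA1 : ∀ i, R (.inr (α₀, i, 1)) := fun i => step (hA i) (on0 i)
    have hA2 : ∀ i, R (.inr (α₀, i, 2)) := fun i => step (hA1 i) (on1 i)
    have hB : ∀ α, α ≠ α₀ → R (.inr (α, 0, 2)) → (∀ i t, R (.inr (α, i, t))) ∧ R (nxt α) := by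
      intro α hα h0
      have h2 : ∀ i, R (.inr (α, i, 2)) := by
        intro i
        induction i using Fin.induction with
        | zero => exact h0
        | succ i ih =>
          have h1 := step (step (step ih (off2 _ _ hα)) (off1 _ _ hα)) (off0 _ _ hα (hcs i))
          simpa using h1
      have h1 : ∀ i, R (.inr (α, i, 1)) := fun i => step (h2 i) (off2 _ _ hα)
      have h0' : ∀ i, R (.inr (α, i, 0)) := fun i => step (h1 i) (off1 _ _ hα)
      refine ⟨fun i t => ?_, step (h0' _) (off0' α hα)⟩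
      fin_cases t
      · exact h0' i
      · exact h1 i
      · exact h2 i
    have hC : ∀ (j : ℕ) (hj : j < N),
        (∀ i t, R (.inr (e.symm ⟨j, hj⟩, i, t))) ∧ R (nxt (e.symm ⟨j, hj⟩)) := by
      intro j
      induction j with
      | zero =>
        intro hj
        refine ⟨fun i t => ?_, step (hA2 _) on2'⟩
        fin_cases t
        · exact hA i
        · exact hA1 i
        · exact hA2 i
      | succ j ih =>
        intro hj
        refine hB _ (by simp [α₀]) ?_
        have h1 := (ih (by omega)).2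
        simpa [nxt, hj] using h1
    rintro (k | ⟨α, i, t⟩)
    · by_cases hk : k = Fin.last _
      · subst hk
        have h1 := (hC (N - 1) (by omega)).2
        have h2 : ¬ (N - 1 + 1 < N) := by omega
        simpa [nxt, h2] using h1
      · exact step (hA2 k) (on2 k hk)
    · simpa using (hC (e α).val (e α).isLt).1 i t

end Pool.Agent.P.MP_9d0e7f_co
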