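import Pool.Agent.P.MP_9d0e7f_co.Cyc

/-!
Replacing each vertex of a digraph by a path on at least three vertices turns directed
Hamilton cycles into undirected ones.
-/

set_option autoImplicit false

namespace Pool.Agent.P.MP_9d0e7f_co

open SimpleGraph

/-- Vertices of the subdivided graph. -/
abbrev Vert {V : Type} (len : V → ℕ) : Type := {p : V × ℕ // p.2 < len p.1}

/-- Arcs of the subdivided digraph. -/
def Arc {V : Type} (D : V → V → Prop) (len : V → ℕ) (u w : Vert len) : Prop :=
  (u.1.1 = w.1.1 ∧ u.1.2 + 1 = w.1.2) ∨ (D u.1.1 w.1.1 ∧ u.1.2 + 1 = len u.1.1 ∧ w.1.2 = 0)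

/-- The underlying undirected graph. -/
def sub {V : Type} (D : V → V → Prop) (len : V → ℕ) : SimpleGraph (Vert len) :=
  SimpleGraph.fromRel (Arc D len)

variable {V : Type} {D : V → V → Prop} {len : V → ℕ}

theorem Vert.ext' {u w : Vert len} (h1 : u.1.1 = w.1.1) (h2 : u.1.2 = w.1.2) : u = w :=
  Subtype.ext (Prod.ext h1 h2)

/-- The vertex type as a sigma type. -/
def vertEquiv (len : V → ℕ) : Vert len ≃ Σ v : V, Fin (len v) where
  toFun u := ⟨u.1.1, ⟨u.1.2, u.2⟩⟩
  invFun x := ⟨(x.1, x.2.1), x.2.2⟩
  left_inv _ := rfl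
  right_inv _ := rfl

noncomputable instance vertFintype [Fintype V] : Fintype (Vert len) :=
  Fintype.ofEquiv _ (vertEquiv len).symm

theorem card_vert [Fintype V] : Fintype.card (Vert len) = ∑ v, len v := by
  rw [Fintype.card_congr (vertEquiv len)]
  simp

theorem sub_adj (h3 : ∀ v, 3 ≤ len v) {u w : Vert len} :
    (sub D len).Adj u w ↔ Arc D len u w ∨ Arc D len w u := by
  rw [sub, fromRel_adj]
  refine ⟨fun h => h.2, fun h => ⟨?_, h⟩⟩
  rintro rfl
  have := h3 u.1.1
  rcases h with (h | h) | (h | h) <;> omega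

theorem forward_step (h3 : ∀ v, 3 ≤ len v) (f : Equiv.Perm (Vert len))
    (hadj : ∀ u, (sub D len).Adj u (f u)) (hne : ∀ u, f (f u) ≠ u) (u : Vert len)
    (hu : Arc D len u (f u)) : Arc D len (f u) (f (f u)) := by
  rcases (sub_adj h3).1 (hadj (f u)) with h | h
  · exact h
  by_cases hb : (f u).1.2 = 0
  · have hl := h3 (f u).1.1
    let m : Vert len := ⟨((f u).1.1, 1), by simp; omega⟩
    have hm1 : m.1.1 = (f u).1.1 := rfl
    have hm2 : m.1.2 = 1 := rfl
    have hnb : ∀ z : Vert len, (sub D len).Adj m z →
        z.1.1 = (f u).1.1 ∧ (z.1.2 = 0 ∨ z.1.2 = 2) := by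
      intro z hz
      rcases (sub_adj h3).1 hz with (h | h) | (h | h)
      · exact ⟨by rw [← h.1, hm1], by omega⟩
      · rw [hm1, hm2] at h; omega
      · exact ⟨by rw [h.1, hm1], by omega⟩
      · omega
    have h1 := hnb _ (hadj m)
    have h2 := hnb (f.symm m) (by simpa using (hadj (f.symm m)).symm)
    have h12 : f m ≠ f.symm m := by
      intro h
      apply hne m
      rw [h]
      simp
    by_cases hc : (f.symm m).1.2 = 0
    · have : f.symm m = f u := Vert.ext' h2.1 (by omega)
      have h4 : f (f u) = m := by rw [← this]; simp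
      rw [h4]
      left
      exact ⟨rfl, by omega⟩
    · exfalso
      have h5 : (f m).1.2 = 0 := by
        by_contra h5
        exact h12 (Vert.ext' (h1.1.trans h2.1.symm) (by omega))
      have h6 : f m = f u := Vert.ext' h1.1 (by omega)
      have h7 : m = u := f.injective h6
      rw [← h7] at hu
      rcases hu with h | h
      · omega
      · rw [hm1, hm2] at h; omega
  · exfalso
    apply hne u
    rcases hu with hu | hu
    · rcases h with h | h
      · exact Vert.ext' (h.1.trans hu.1.symm) (by omega)
      · omega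
    · omega

theorem contract (h3 : ∀ v, 3 ≤ len v) (f : Equiv.Perm (Vert len))
    (harc : ∀ u, Arc D len u (f u)) (hc : IsCyc f) :
    ∃ g : V → V, (∀ v, D v (g v)) ∧ Function.Injective g ∧ IsCyc g := by
  let top : V → Vert len := fun v => ⟨(v, len v - 1), by have := h3 v; simp; omega⟩
  have htop : ∀ v, D v (f (top v)).1.1 ∧ (f (top v)).1.2 = 0 := by
    intro v
    have h1 : (top v).1.1 = v := rfl
    have h2 : (top v).1.2 = len v - 1 := rfl
    have := h3 v
    rcases harc (top v) with h | h
    · have h4 := (f (top v)).2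
      rw [← h.1, h1] at h4
      omega
    · exact ⟨h.1, h.2.2⟩
  refine ⟨fun v => (f (top v)).1.1, fun v => (htop v).1, ?_, ?_⟩
  · intro v w hvw
    have : f (top v) = f (top w) := Vert.ext' hvw ((htop v).2.trans (htop w).2.symm)
    exact congrArg (fun z : Vert len => z.1.1) (f.injective this)
  · intro S hS hcl v
    refine hc {u | u.1.1 ∈ S} ?_ ?_ (top v)
    · obtain ⟨w, hw⟩ := hS
      exact ⟨top w, hw⟩
    · intro u hu
      rcases harc u with h | h
      · show (f u).1.1 ∈ S
        rw [← h.1]
        exact hu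
      · have : u = top u.1.1 := Vert.ext' rfl (by show u.1.2 = len u.1.1 - 1; omega)
        show (f u).1.1 ∈ S
        rw [this]
        exact hcl _ hu

/-- An undirected Hamilton cycle of the subdivision gives a directed one of the digraph. -/
theorem directed_of_ham [Fintype V] [DecidableEq V] (h3 : ∀ v, 3 ≤ len v) {a : Vert len}
    {p : (sub D len).Walk a a} (hp : p.IsHamiltonianCycle) :
    ∃ g : V → V, (∀ v, D v (g v)) ∧ Function.Injective g ∧ IsCyc g := by
  obtain ⟨f, hadj, hne, hc⟩ := exists_succ_of_ham _ hp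
  by_cases h : ∃ u, Arc D len u (f u)
  · exact contract h3 f
      (hc {u | Arc D len u (f u)} h (fun u hu => forward_step h3 f hadj hne u hu)) hc
  · refine contract h3 f.symm (fun u => ?_) hc.symm
    rcases (sub_adj h3).1 (hadj (f.symm u)) with h1 | h1
    · exact absurd ⟨_, h1⟩ h
    · simpa using h1

/-- A directed Hamilton cycle of the digraph gives an undirected one of the subdivision. -/
theorem ham_of_directed [Fintype V] [DecidableEq V] (h3 : ∀ v, 3 ≤ len v) (s : V → V) (hs : ∀ v, D v (s v))
    (v : V) (hreach : ∀ w, Relation.TransGen (fun a b => s a = b) v w) :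
    ∃ (u : Vert len) (p : (sub D len).Walk u u), p.IsHamiltonianCycle := by
  let bot : V → Vert len := fun v => ⟨(v, 0), by have := h3 v; simp; omega⟩
  let t : Vert len → Vert len := fun u =>
    if h : u.1.2 + 1 < len u.1.1 then ⟨(u.1.1, u.1.2 + 1), h⟩ else bot (s u.1.1)
  have hin : ∀ (w : V) (k : ℕ) (hk : k < len w),
      Relation.ReflTransGen (fun a b => t a = b) (bot w) ⟨(w, k), hk⟩ := by
    intro w k
    induction k with
    | zero => intro hk; exact .refl
    | succ k ih =>
      intro hk
      refine (ih (by omega)).tail ?_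
      simp only [t]
      rw [dif_pos hk]
  have hnext : ∀ w : V, Relation.TransGen (fun a b => t a = b) (bot w) (bot (s w)) := by
    intro w
    have := h3 w
    refine Relation.TransGen.tail' (hin w (len w - 1) (by omega)) ?_
    simp only [t]
    rw [dif_neg (by omega)]
  have hall : ∀ w : V, Relation.TransGen (fun a b => t a = b) (bot v) (bot w) := by
    intro w
    induction hreach w with
    | single h => exact h ▸ hnext v
    | tail _ h ih => exact ih.trans (h ▸ hnext _)
  refine ham_of_succ _ ?_ t ?_ (bot v) ?_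
  · rw [card_vert]
    exact (h3 v).trans (Finset.single_le_sum (fun _ _ => Nat.zero_le _) (Finset.mem_univ v))
  · intro u
    refine (sub_adj h3).2 (Or.inl ?_)
    simp only [t]
    split_ifs with h
    · exact Or.inl ⟨rfl, rfl⟩
    · have := u.2
      exact Or.inr ⟨hs _, by omega, rfl⟩
  · intro w
    exact (hall w.1.1).trans_left (hin w.1.1 w.1.2 w.2)

end Pool.Agent.P.MP_9d0e7f_co
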